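import Pool.Agent.H482R3.EA.Stm

set_option autoImplicit false

/-! Project EA, task C1. -/

namespace Pool.Agent.H339R3.EA

open Pool.Agent.H482R3.EA

theorem ev_app {S G : Type} [Group G] (f : S → G) (u u' : W S) :
    ev f (u ++ u') = ev f u * ev f u' := by
  simp [ev]

theorem ev_nil {S G : Type} [Group G] (f : S → G) : ev f ([] : W S) = 1 := by simp [ev]

theorem inv_cons {S : Type} (a : S × Bool) (u : W S) : inv (a :: u) = inv u ++ [(a.1, !a.2)] := by
  simp [inv]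

theorem ev_inv {S G : Type} [Group G] (f : S → G) (u : W S) : ev f (inv u) = (ev f u)⁻¹ := by
  induction u with
  | nil => simp [inv, ev]
  | cons a u ih =>
    rw [inv_cons, ev_app, ih]
    have h1 : ev f (a :: u) = (if a.2 then f a.1 else (f a.1)⁻¹) * ev f u := by simp [ev]
    have h2 : ev f [(a.1, !a.2)] = (if a.2 then f a.1 else (f a.1)⁻¹)⁻¹ := by
      rcases a with ⟨s, b⟩
      cases b <;> simp [ev]
    rw [h1, h2, mul_inv_rev]

/-- powers of words -/
def rp (w : W ℕ) (n : ℕ) : W ℕ := Nat.rec [] (fun _ acc => acc ++ w) n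

theorem ev_rp {G : Type} [Group G] (f : ℕ → G) (w : W ℕ) (n : ℕ) : ev f (rp w n) = ev f w ^ n := by
  induction n with
  | zero => simp [rp, ev]
  | succ n ih =>
    have : rp w (n + 1) = rp w n ++ w := rfl
    rw [this, ev_app, ih, pow_succ]

/-- the word of `P` -/
def Pw (k : ℕ) : W ℕ := List.ofFn (fun r : Fin k => ((r : ℕ), true))

theorem ev_Pw (hX : S_XX) (k : ℕ) (hk : 0 < k) : evF k (Pw k) = PP k := by
  have h := (hX k hk).2.1 0
  rw [← h]
  unfold evF ev Pw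
  rw [List.map_ofFn]
  congr 2
  funext r
  show xx k (((r : ℕ) % k : ℕ) : ℤ) = xx k (0 + ((r : ℕ) : ℤ))
  rw [Nat.mod_eq_of_lt r.2, zero_add]

/-- the word of `x_s ^ a`, `s = r + k (j1 - j2)`, `a = a1 - a2` -/
def wd (k j1 j2 a1 a2 r : ℕ) : W ℕ :=
  (rp (Pw k) j2 ++ rp (inv (Pw k)) j1) ++ ((rp [(r, true)] a1 ++ rp [(r, false)] a2) ++
    (rp (Pw k) j1 ++ rp (inv (Pw k)) j2))

theorem xx_eq (hX : S_XX) (k : ℕ) (hk : 0 < k) (s : ℤ) :
    xx k s = PP k ^ (-(s / (k : ℤ))) * xx k (((s % (k : ℤ)).toNat : ℕ) : ℤ) * PP k ^ (s / (k : ℤ)) := by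
  have h1 := Int.emod_nonneg s (b := (k : ℤ)) (by omega)
  have h2 := Int.emod_lt_of_pos s (b := (k : ℤ)) (by omega)
  have h3 := (hX k hk).2.2 ⟨(s % (k : ℤ)).toNat, by omega⟩
  rw [show (((s % (k : ℤ)).toNat : ℕ) : ℤ)
    = (((⟨(s % (k : ℤ)).toNat, by omega⟩ : Fin k) : ℕ) : ℤ) from rfl, h3]
  conv_lhs => unfold xx
  rw [dif_pos hk]

theorem ev_wd (hX : S_XX) (k : ℕ) (hk : 0 < k) (j1 j2 a1 a2 r : ℕ) :
    evF k (wd k j1 j2 a1 a2 r)
      = xx k (((r % k : ℕ) : ℤ) + k * ((j1 : ℤ) - j2)) ^ ((a1 : ℤ) - a2) := by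
  have hk' : (k : ℤ) ≠ 0 := by omega
  have e1 : (((r % k : ℕ) : ℤ) + k * ((j1 : ℤ) - j2)) / (k : ℤ) = (j1 : ℤ) - j2 := by
    rw [Int.add_mul_ediv_left _ _ hk']
    have : ((r % k : ℕ) : ℤ) / (k : ℤ) = 0 := by
      apply Int.ediv_eq_zero_of_lt
      · positivity
      · exact_mod_cast Nat.mod_lt r hk
    rw [this, zero_add]
  have e2 : ((((r % k : ℕ) : ℤ) + k * ((j1 : ℤ) - j2)) % (k : ℤ)).toNat = r % k := by
    rw [Int.add_mul_emod_self_left]
    have : ((r % k : ℕ) : ℤ) % (k : ℤ) = ((r % k : ℕ) : ℤ) := by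
      apply Int.emod_eq_of_lt
      · positivity
      · exact_mod_cast Nat.mod_lt r hk
    rw [this]; exact Int.toNat_natCast _
  rw [xx_eq hX k hk, e1, e2]
  have hP := ev_Pw hX k hk
  have hr1 : evF k [(r, true)] = xx k ((r % k : ℕ) : ℤ) := by simp [evF, ev]
  have hr2 : evF k [(r, false)] = (xx k ((r % k : ℕ) : ℤ))⁻¹ := by simp [evF, ev]
  have hPi : evF k (inv (Pw k)) = (PP k)⁻¹ := by
    rw [← hP]; exact ev_inv _ _
  have hrp : ∀ (w : W ℕ) (n : ℕ), evF k (rp w n) = evF k w ^ n := fun w n => ev_rp _ w n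
  have happ : ∀ (u u' : W ℕ), evF k (u ++ u') = evF k u * evF k u' := fun u u' => ev_app _ u u'
  rw [wd, happ, happ, happ, happ, happ, hrp, hrp, hrp, hrp, hrp, hrp, hr1, hr2, hP, hPi]
  set P := PP k
  set x := xx k ((r % k : ℕ) : ℤ)
  have c1 : P ^ j2 * P⁻¹ ^ j1 = P ^ (-((j1 : ℤ) - j2)) := by
    rw [neg_sub, zpow_sub, zpow_natCast, zpow_natCast, inv_pow]
  have c2 : P ^ j1 * P⁻¹ ^ j2 = P ^ ((j1 : ℤ) - j2) := by
    rw [zpow_sub, zpow_natCast, zpow_natCast, inv_pow]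
  have c3 : x ^ a1 * x⁻¹ ^ a2 = x ^ ((a1 : ℤ) - a2) := by
    rw [zpow_sub, zpow_natCast, zpow_natCast, inv_pow]
  rw [c1, c2, c3]
  have c4 : P ^ ((j1 : ℤ) - j2) = (P ^ (-((j1 : ℤ) - j2)))⁻¹ := by
    rw [zpow_neg, inv_inv]
  rw [c4, conj_zpow, mul_assoc]

theorem evF_eq_iff (k : ℕ) (y w : W ℕ) : evF k (y ++ inv w) = 1 ↔ evF k y = evF k w := by
  have : evF k (y ++ inv w) = evF k y * (evF k w)⁻¹ := by
    rw [evF, ev_app, ev_inv]; rfl
  rw [this, mul_inv_eq_one]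

/-! computability -/

theorem prim_rp : Primrec₂ (fun (w : W ℕ) (n : ℕ) => rp w n) := by
  have h : Primrec₂ (fun (w : W ℕ) (n : ℕ) =>
      Nat.rec (motive := fun _ => W ℕ) [] (fun _ acc => acc ++ w) n) :=
    Primrec.nat_rec (f := fun _ : W ℕ => ([] : W ℕ))
      (g := fun (w : W ℕ) (p : ℕ × W ℕ) => p.2 ++ w) (Primrec.const [])
      (Primrec.list_append.comp (Primrec.snd.comp Primrec.snd) Primrec.fst).to₂
  exact h

theorem prim_inv : Primrec (fun w : W ℕ => inv w) := by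
  have : Primrec (fun w : W ℕ => (w.map (fun a => (a.1, !a.2))).reverse) :=
    Primrec.list_reverse.comp (Primrec.list_map Primrec.id
      (Primrec.pair (Primrec.fst.comp Primrec.snd)
        (Primrec.not.comp (Primrec.snd.comp Primrec.snd))).to₂)
  exact this

/-- the search space -/
abbrev D5 : Type := ((((W ℕ × ℕ) × ℕ) × ℕ) × ℕ) × ℕ

theorem prim_test (k : ℕ) : Primrec (fun x : D5 =>
    x.1.1.1.1.1 ++ inv (wd k x.1.1.1.1.2 x.1.1.1.2 x.1.1.2 x.1.2 x.2)) := by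
  have f1 : Primrec (fun x : D5 => x.1) := Primrec.fst
  have f2 : Primrec (fun x : D5 => x.1.1) := Primrec.fst.comp f1
  have f3 : Primrec (fun x : D5 => x.1.1.1) := Primrec.fst.comp f2
  have f4 : Primrec (fun x : D5 => x.1.1.1.1) := Primrec.fst.comp f3
  have f5 : Primrec (fun x : D5 => x.1.1.1.1.1) := Primrec.fst.comp f4
  have r : Primrec (fun x : D5 => x.2) := Primrec.snd
  have a2 : Primrec (fun x : D5 => x.1.2) := Primrec.snd.comp f1
  have a1 : Primrec (fun x : D5 => x.1.1.2) := Primrec.snd.comp f2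
  have j2 : Primrec (fun x : D5 => x.1.1.1.2) := Primrec.snd.comp f3
  have j1 : Primrec (fun x : D5 => x.1.1.1.1.2) := Primrec.snd.comp f4
  have l1 : Primrec (fun x : D5 => ([(x.2, true)] : W ℕ)) :=
    Primrec.list_cons.comp (Primrec.pair r (Primrec.const true)) (Primrec.const [])
  have l2 : Primrec (fun x : D5 => ([(x.2, false)] : W ℕ)) :=
    Primrec.list_cons.comp (Primrec.pair r (Primrec.const false)) (Primrec.const [])
  have hw : Primrec (fun x : D5 => wd k x.1.1.1.1.2 x.1.1.1.2 x.1.1.2 x.1.2 x.2) := by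
    unfold wd
    refine Primrec.list_append.comp (Primrec.list_append.comp
      (prim_rp.comp (Primrec.const _) j2) (prim_rp.comp (Primrec.const _) j1)) ?_
    refine Primrec.list_append.comp (Primrec.list_append.comp
      (prim_rp.comp l1 a1) (prim_rp.comp l2 a2)) ?_
    exact Primrec.list_append.comp
      (prim_rp.comp (Primrec.const _) j1) (prim_rp.comp (Primrec.const _) j2)
  exact Primrec.list_append.comp f5 (prim_inv.comp hw)

theorem comp_pred {α β : Type} [Primcodable α] [Primcodable β] {p : β → Prop}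
    (hp : ComputablePred p) {f : α → β} (hf : Computable f) :
    ComputablePred (fun x => p (f x)) := by
  obtain ⟨g, hg, rfl⟩ := ComputablePred.computable_iff.1 hp
  exact ComputablePred.computable_iff.2 ⟨fun x => g (f x), hg.comp hf, rfl⟩

theorem t_C1 (hB : S_BD) (hF : S_FR) (hX : S_XX) (hC : S_BS) (_hP : S_CP) : S_C1 := by
  intro k hk2
  have hk : 0 < k := by omega
  obtain ⟨B, hBc, hB1, _⟩ := hB k hk2
  have h5 : ComputablePred (fun x : D5 =>
      evF k (x.1.1.1.1.1 ++ inv (wd k x.1.1.1.1.2 x.1.1.1.2 x.1.1.2 x.1.2 x.2)) = 1) :=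
    comp_pred (hF k hk) (prim_test k).to_comp
  have hlen : Computable (fun y : W ℕ => B y.length) := hBc.comp Computable.list_length
  have h4 := hC ((((W ℕ × ℕ) × ℕ) × ℕ) × ℕ) inferInstance _ (fun _ => k) h5 (Computable.const k)
  have h3 := hC (((W ℕ × ℕ) × ℕ) × ℕ) inferInstance _ (fun x => B x.1.1.1.length) h4
    (hlen.comp ((Computable.fst.comp Computable.fst).comp Computable.fst))
  have h2 := hC ((W ℕ × ℕ) × ℕ) inferInstance _ (fun x => B x.1.1.length) h3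
    (hlen.comp (Computable.fst.comp Computable.fst))
  have h1 := hC (W ℕ × ℕ) inferInstance _ (fun x => B x.1.length) h2
    (hlen.comp Computable.fst)
  have h0 := hC (W ℕ) inferInstance _ (fun x => B x.length) h1 hlen
  have heq : (fun y : W ℕ => cond1 k y) = fun y : W ℕ => ¬ ∃ n, n ≤ B y.length ∧ ∃ n_1, n_1 ≤ B y.length ∧
      ∃ n_2, n_2 ≤ B y.length ∧ ∃ n_3, n_3 ≤ B y.length ∧ ∃ n_4, n_4 ≤ k ∧
        evF k (y ++ inv (wd k n n_1 n_2 n_3 n_4)) = 1 := by
    funext y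
    apply propext
    constructor
    · rintro hc ⟨j1, _, j2, _, a1, _, a2, _, r, _, he⟩
      rw [evF_eq_iff, ev_wd hX k hk] at he
      exact hc _ _ he
    · intro hc s a he
      apply hc
      obtain ⟨s', a', hs, ha, he'⟩ := hB1 y s a he
      rw [Int.abs_eq_natAbs] at hs ha
      have hs1 : (s' / (k : ℤ)).natAbs ≤ s'.natAbs := Int.natAbs_ediv_le_natAbs s' k
      have hm := Int.emod_nonneg s' (b := (k : ℤ)) (by omega)
      have hm2 := Int.emod_lt_of_pos s' (b := (k : ℤ)) (by omega)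
      refine ⟨(s' / (k : ℤ)).toNat, by omega, (-(s' / (k : ℤ))).toNat, by omega,
        a'.toNat, by omega, (-a').toNat, by omega, (s' % (k : ℤ)).toNat, by omega, ?_⟩
      rw [evF_eq_iff, ev_wd hX k hk, he']
      have q1 : (((s' / (k : ℤ)).toNat : ℕ) : ℤ) - (((-(s' / (k : ℤ))).toNat : ℕ) : ℤ)
          = s' / (k : ℤ) := by omega
      have q2 : ((a'.toNat : ℕ) : ℤ) - (((-a').toNat : ℕ) : ℤ) = a' := by omega
      have q3 : (((s' % (k : ℤ)).toNat % k : ℕ) : ℤ) = s' % (k : ℤ) := by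
        rw [Nat.mod_eq_of_lt (by omega)]
        omega
      rw [q1, q2, q3, Int.emod_add_mul_ediv]
  rw [heq]
  exact h0.not

end Pool.Agent.H339R3.EA
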